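import Pool.Agent.V11129.TutteComp

/-!
# A 3-outerplanar 3-connected triangulated disc without two completely independent spanning trees

The graph has 21 vertices. Vertices `0..5` form the outer hexagon, `6..11` an inner hexagon, the two
joined by a band of 12 triangles; the inner hexagon is triangulated by the diagonals `6 8`, `8 10`,
`10 6`. Nine of the 16 inner triangles get a new vertex (`12..20`) joined to their three vertices.
-/

set_option autoImplicit false

namespace Pool.Agent.Results.MP_6a18d8_co.NoTwoCISTs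

open Finset Pool.Agent.V11129

/-- A connected graph with a combinatorial embedding in the sphere and a chosen outer face. `next v`
is a cyclic permutation of the neighbours of `v`; the faces are the cycles of the map
`(u, v) ↦ (v, next v u)` on directed edges, and Euler's formula holds. -/
structure PlaneGraph (V : Type) [Fintype V] where
  graph : SimpleGraph V
  connected : graph.Connected
  next : V → V → V
  next_adj : ∀ v u, graph.Adj v u → graph.Adj v (next v u)
  next_cyclic : ∀ v u w, graph.Adj v u → graph.Adj v w → ∃ k : ℕ, (next v)^[k] u = w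
  Face : Type
  faceFintype : Fintype Face
  face : V → V → Face
  face_iff : ∀ u v u' v', graph.Adj u v → graph.Adj u' v' →
    (face u v = face u' v' ↔
      ∃ k : ℕ, (fun d : V × V => (d.2, next d.2 d.1))^[k] (u, v) = (u', v'))
  face_surj : ∀ f, ∃ u v, graph.Adj u v ∧ face u v = f
  euler : Fintype.card V + Fintype.card Face = Nat.card graph.edgeSet + 2
  outer : Face

namespace PlaneGraph

variable {V : Type} [Fintype V] (P : PlaneGraph V)

/-- The vertex `x` lies on the boundary of the face `f`. -/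
def OnFace (x : V) (f : P.Face) : Prop := ∃ y, P.graph.Adj x y ∧ P.face x y = f

/-- Every inner face is a triangle. -/
def IsTriangulatedDisc : Prop := ∀ u v, P.graph.Adj u v → P.face u v ≠ P.outer →
  (fun d : V × V => (d.2, P.next d.2 d.1))^[3] (u, v) = (u, v)

/-- The faces that are contained in the outer face of the plane graph obtained by deleting the
vertices in `S`: the outer face, and all faces that meet such a face in a deleted vertex. -/
inductive Region (S : Set V) : P.Face → Prop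
  | outer : Region S P.outer
  | step {f g : P.Face} {s : V} : Region S f → s ∈ S → P.OnFace s f → P.OnFace s g → Region S g

/-- The vertices on the outer face after deleting `S`. -/
def outerAfter (S : Set V) : Set V := {v | v ∉ S ∧ ∃ f, P.Region S f ∧ P.OnFace v f}

/-- The embedding is 3-outerplanar. -/
def IsThreeOuterplanar : Prop :=
  P.outerAfter ∅ ∪ P.outerAfter (P.outerAfter ∅) ∪
    P.outerAfter (P.outerAfter ∅ ∪ P.outerAfter (P.outerAfter ∅)) = Set.univ

end PlaneGraph

/-- A graph is 3-connected if it has at least 4 vertices and stays connected after deleting at most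
2 vertices. -/
def ThreeConnected {V : Type} [Fintype V] (G : SimpleGraph V) : Prop :=
  4 ≤ Fintype.card V ∧ ∀ S : Finset V, S.card ≤ 2 → (G.induce {v | v ∉ S}).Connected

/-- `T₁` and `T₂` are completely independent spanning trees of `G`. -/
def IsCIST {V : Type} (G T₁ T₂ : SimpleGraph V) : Prop :=
  T₁ ≤ G ∧ T₂ ≤ G ∧ T₁.IsTree ∧ T₂.IsTree ∧
    ∀ u v, u ≠ v → ∀ (p : T₁.Walk u v) (q : T₂.Walk u v), p.IsPath → q.IsPath →
      (∀ e ∈ p.edges, e ∉ q.edges) ∧ ∀ w ∈ p.support, w ∈ q.support → w = u ∨ w = v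

/-! ### Inner vertices of two completely independent spanning trees -/

section CIST

variable {V : Type}

/-- `w` has two different neighbours in `T`. -/
def Inner (T : SimpleGraph V) (w : V) : Prop := ∃ a b, a ≠ b ∧ T.Adj w a ∧ T.Adj w b

/-- There is a walk avoiding `w`. -/
def Avoid (T : SimpleGraph V) (w u v : V) : Prop := ∃ p : T.Walk u v, w ∉ p.support

theorem avoid_symm {T : SimpleGraph V} {w u v : V} (h : Avoid T w u v) : Avoid T w v u := by
  obtain ⟨p, hp⟩ := h
  exact ⟨p.reverse, by rwa [SimpleGraph.Walk.support_reverse, List.mem_reverse]⟩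

theorem avoid_trans {T : SimpleGraph V} {w u v x : V} (h : Avoid T w u v) (h' : Avoid T w v x) :
    Avoid T w u x := by
  obtain ⟨p, hp⟩ := h
  obtain ⟨q, hq⟩ := h'
  refine ⟨p.append q, ?_⟩
  rw [SimpleGraph.Walk.mem_support_append_iff, not_or]
  exact ⟨hp, hq⟩

theorem not_avoid {T : SimpleGraph V} (hT : T.IsTree) {w a b : V} (hab : a ≠ b)
    (ha : T.Adj w a) (hb : T.Adj w b) : ¬ Avoid T w a b := by
  classical
  rintro ⟨p, hp⟩
  have h1 : w ∉ (p.toPath : T.Walk a b).support := fun h => hp (p.support_toPath_subset_support h)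
  have h2 : (SimpleGraph.Walk.cons ha.symm (SimpleGraph.Walk.cons hb SimpleGraph.Walk.nil)).IsPath := by
    rw [SimpleGraph.Walk.cons_isPath_iff, SimpleGraph.Walk.cons_isPath_iff]
    refine ⟨⟨SimpleGraph.Walk.IsPath.nil, ?_⟩, ?_⟩
    · simp only [SimpleGraph.Walk.support_nil, List.mem_singleton]
      exact hb.ne
    · simp only [SimpleGraph.Walk.support_cons, SimpleGraph.Walk.support_nil, List.mem_cons,
        List.not_mem_nil, or_false, not_or]
      exact ⟨ha.ne.symm, hab⟩
  have h3 := hT.isAcyclic.path_unique p.toPath ⟨_, h2⟩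
  rw [h3] at h1
  apply h1
  simp

theorem inner_disjoint {G T₁ T₂ : SimpleGraph V} (h : IsCIST G T₁ T₂) (w : V) :
    ¬ (Inner T₁ w ∧ Inner T₂ w) := by
  classical
  obtain ⟨-, -, t1, t2, hc⟩ := h
  rintro ⟨⟨a, b, hab, ha, hb⟩, ⟨c, d, hcd, hc1, hd1⟩⟩
  have nab := not_avoid t1 hab ha hb
  have ncd := not_avoid t2 hcd hc1 hd1
  have tot : ∀ u v, u ≠ w → v ≠ w → Avoid T₁ w u v ∨ Avoid T₂ w u v := by
    intro u v hu hv
    by_cases huv : u = v
    · subst huv
      left
      refine ⟨SimpleGraph.Walk.nil, ?_⟩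
      simp only [SimpleGraph.Walk.support_nil, List.mem_singleton]
      exact hu.symm
    · obtain ⟨p⟩ := t1.connected.preconnected u v
      obtain ⟨q⟩ := t2.connected.preconnected u v
      have h1 := (hc u v huv p.toPath q.toPath p.toPath.2 q.toPath.2).2 w
      by_cases hp : w ∈ (p.toPath : T₁.Walk u v).support
      · by_cases hq : w ∈ (q.toPath : T₂.Walk u v).support
        · rcases h1 hp hq with h | h
          · exact absurd h.symm hu
          · exact absurd h.symm hv
        · exact Or.inr ⟨_, hq⟩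
      · exact Or.inl ⟨_, hp⟩
  have haw : a ≠ w := ha.ne.symm
  have hbw : b ≠ w := hb.ne.symm
  have hcw : c ≠ w := hc1.ne.symm
  have hdw : d ≠ w := hd1.ne.symm
  have rcd : Avoid T₁ w c d := (tot c d hcw hdw).resolve_right ncd
  by_cases hac : Avoid T₁ w a c
  · have h1 : ¬ Avoid T₁ w b c := fun h => nab (avoid_trans hac (avoid_symm h))
    have h2 : Avoid T₂ w b c := (tot b c hbw hcw).resolve_left h1
    have h3 : ¬ Avoid T₁ w b d := fun h => h1 (avoid_trans h (avoid_symm rcd))
    have h4 : Avoid T₂ w b d := (tot b d hbw hdw).resolve_left h3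
    exact ncd (avoid_trans (avoid_symm h2) h4)
  · have h2 : Avoid T₂ w a c := (tot a c haw hcw).resolve_left hac
    have h3 : ¬ Avoid T₁ w a d := fun h => hac (avoid_trans h (avoid_symm rcd))
    have h4 : Avoid T₂ w a d := (tot a d haw hdw).resolve_left h3
    exact ncd (avoid_trans (avoid_symm h2) h4)

end CIST

/-! ### The graph -/

/-- The 27 edges of the graph on the first 12 vertices. -/
def tE : List (Fin 21 × Fin 21) :=
  [(0, 1), (0, 5), (0, 6), (0, 11), (1, 2), (1, 6), (1, 7), (2, 3), (2, 7), (2, 8), (3, 4), (3,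
  8), (3, 9), (4, 5), (4, 9), (4, 10), (5, 10), (5, 11), (6, 7), (6, 8), (6, 10), (6, 11), (7,
  8), (8, 9), (8, 10), (9, 10), (10, 11)]

/-- The 27 edges at the new vertices. -/
def sE : List (Fin 21 × Fin 21) :=
  [(0, 12), (0, 17), (1, 12), (1, 13), (2, 13), (2, 14), (3, 14), (3, 15), (4, 15), (4, 16), (5,
  16), (5, 17), (6, 12), (6, 18), (6, 20), (7, 13), (7, 18), (8, 14), (8, 18), (8, 19), (9,
  15), (9, 19), (10, 16), (10, 19), (10, 20), (11, 17), (11, 20)]

/-- The graph. -/
def G : SimpleGraph (Fin 21) := listGraph (tE ++ sE)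

/-- The graph on the first 12 vertices. -/
def T : SimpleGraph (Fin 21) := listGraph tE

/-- The label of the face to the left of a directed edge, and 99 if there is no such edge. -/
def fTab : List (List ℕ) :=
  [[99, 1, 99, 99, 99, 0, 24, 99, 99, 99, 99, 22, 3, 99, 99, 99, 99, 21, 99, 99, 99], [0, 99, 5,
  99, 99, 99, 2, 4, 99, 99, 99, 99, 1, 7, 99, 99, 99, 99, 99, 99, 99], [99, 0, 99, 9, 99, 99,
  99, 6, 8, 99, 99, 99, 99, 5, 11, 99, 99, 99, 99, 99, 99], [99, 99, 0, 99, 13, 99, 99, 99, 10,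
  12, 99, 99, 99, 99, 9, 15, 99, 99, 99, 99, 99], [99, 99, 99, 0, 99, 17, 99, 99, 99, 14, 16,
  99, 99, 99, 99, 13, 19, 99, 99, 99, 99], [21, 99, 99, 99, 0, 99, 99, 99, 99, 99, 18, 20, 99,
  99, 99, 99, 17, 23, 99, 99, 99], [3, 4, 99, 99, 99, 99, 99, 26, 25, 99, 34, 24, 2, 99, 99,
  99, 99, 99, 28, 99, 33], [99, 7, 8, 99, 99, 99, 4, 99, 27, 99, 99, 99, 99, 6, 99, 99, 99, 99,
  26, 99, 99], [99, 99, 11, 12, 99, 99, 28, 8, 99, 29, 25, 99, 99, 99, 10, 99, 99, 99, 27, 31,
  99], [99, 99, 99, 15, 16, 99, 99, 99, 12, 99, 30, 99, 99, 99, 99, 14, 99, 99, 99, 29, 99],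
  [99, 99, 99, 99, 19, 20, 25, 99, 31, 16, 99, 32, 99, 99, 99, 99, 18, 99, 99, 30, 34], [24,
  99, 99, 99, 99, 23, 33, 99, 99, 99, 20, 99, 99, 99, 99, 99, 99, 22, 99, 99, 32], [1, 2, 99,
  99, 99, 99, 3, 99, 99, 99, 99, 99, 99, 99, 99, 99, 99, 99, 99, 99, 99], [99, 5, 6, 99, 99,
  99, 99, 7, 99, 99, 99, 99, 99, 99, 99, 99, 99, 99, 99, 99, 99], [99, 99, 9, 10, 99, 99, 99,
  99, 11, 99, 99, 99, 99, 99, 99, 99, 99, 99, 99, 99, 99], [99, 99, 99, 13, 14, 99, 99, 99, 99,
  15, 99, 99, 99, 99, 99, 99, 99, 99, 99, 99, 99], [99, 99, 99, 99, 17, 18, 99, 99, 99, 99, 19,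
  99, 99, 99, 99, 99, 99, 99, 99, 99, 99], [22, 99, 99, 99, 99, 21, 99, 99, 99, 99, 99, 23, 99,
  99, 99, 99, 99, 99, 99, 99, 99], [99, 99, 99, 99, 99, 99, 26, 27, 28, 99, 99, 99, 99, 99, 99,
  99, 99, 99, 99, 99, 99], [99, 99, 99, 99, 99, 99, 99, 99, 29, 30, 31, 99, 99, 99, 99, 99, 99,
  99, 99, 99, 99], [99, 99, 99, 99, 99, 99, 34, 99, 99, 99, 32, 33, 99, 99, 99, 99, 99, 99, 99,
  99, 99]]

/-- The next neighbour in the cyclic order. -/
def nTab : List (List ℕ) :=
  [[0, 5, 0, 0, 0, 17, 12, 0, 0, 0, 0, 6, 1, 0, 0, 0, 0, 11, 0, 0, 0], [12, 0, 0, 0, 0, 0, 7, 13,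
  0, 0, 0, 0, 6, 2, 0, 0, 0, 0, 0, 0, 0], [0, 13, 0, 1, 0, 0, 0, 8, 14, 0, 0, 0, 0, 7, 3, 0, 0,
  0, 0, 0, 0], [0, 0, 14, 0, 2, 0, 0, 0, 9, 15, 0, 0, 0, 0, 8, 4, 0, 0, 0, 0, 0], [0, 0, 0, 15,
  0, 3, 0, 0, 0, 10, 16, 0, 0, 0, 0, 9, 5, 0, 0, 0, 0], [4, 0, 0, 0, 16, 0, 0, 0, 0, 0, 11, 17,
  0, 0, 0, 0, 10, 0, 0, 0, 0], [11, 12, 0, 0, 0, 0, 0, 1, 18, 0, 8, 20, 0, 0, 0, 0, 0, 0, 7, 0,
  10], [0, 6, 13, 0, 0, 0, 18, 0, 2, 0, 0, 0, 0, 1, 0, 0, 0, 0, 8, 0, 0], [0, 0, 7, 14, 0, 0,
  10, 18, 0, 3, 19, 0, 0, 0, 2, 0, 0, 0, 6, 9, 0], [0, 0, 0, 8, 15, 0, 0, 0, 19, 0, 4, 0, 0, 0,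
  0, 3, 0, 0, 0, 10, 0], [0, 0, 0, 0, 9, 16, 20, 0, 6, 19, 0, 5, 0, 0, 0, 0, 4, 0, 0, 8, 11],
  [17, 0, 0, 0, 0, 10, 0, 0, 0, 0, 20, 0, 0, 0, 0, 0, 0, 5, 0, 0, 6], [6, 0, 0, 0, 0, 0, 1, 0,
  0, 0, 0, 0, 0, 0, 0, 0, 0, 0, 0, 0, 0], [0, 7, 1, 0, 0, 0, 0, 2, 0, 0, 0, 0, 0, 0, 0, 0, 0,
  0, 0, 0, 0], [0, 0, 8, 2, 0, 0, 0, 0, 3, 0, 0, 0, 0, 0, 0, 0, 0, 0, 0, 0, 0], [0, 0, 0, 9, 3,
  0, 0, 0, 0, 4, 0, 0, 0, 0, 0, 0, 0, 0, 0, 0, 0], [0, 0, 0, 0, 10, 4, 0, 0, 0, 0, 5, 0, 0, 0,
  0, 0, 0, 0, 0, 0, 0], [5, 0, 0, 0, 0, 11, 0, 0, 0, 0, 0, 0, 0, 0, 0, 0, 0, 0, 0, 0, 0], [0,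
  0, 0, 0, 0, 0, 8, 6, 7, 0, 0, 0, 0, 0, 0, 0, 0, 0, 0, 0, 0], [0, 0, 0, 0, 0, 0, 0, 0, 10, 8,
  9, 0, 0, 0, 0, 0, 0, 0, 0, 0, 0], [0, 0, 0, 0, 0, 0, 11, 0, 0, 0, 6, 10, 0, 0, 0, 0, 0, 0, 0,
  0, 0]]

/-- Table lookup. -/
def look (t : List (List ℕ)) (u v : Fin 21) : ℕ := (t.getD u []).getD v 0

/-- Adjacency, as a boolean function. -/
def adjB (u v : Fin 21) : Bool := !(Nat.beq (look fTab u v) 99)

/-- Adjacency in the graph on 12 vertices. -/
def adjT (u v : Fin 21) : Bool := adjB u v && (Nat.blt u 12 && Nat.blt v 12)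

theorem adj_list_iff (l : List (Fin 21 × Fin 21)) (u v : Fin 21) :
    (listGraph l).Adj u v ↔ (u, v) ∈ l ∧ u ≠ v ∨ (v, u) ∈ l ∧ u ≠ v := by
  rw [listGraph, SimpleGraph.fromEdgeSet_adj]
  constructor
  · rintro ⟨⟨p, hp, hpe⟩, hne⟩
    rw [Sym2.eq_iff] at hpe
    rcases hpe with ⟨h1, h2⟩ | ⟨h1, h2⟩
    · left
      refine ⟨?_, hne⟩
      rw [← h1, ← h2]
      exact hp
    · right
      refine ⟨?_, hne⟩
      rw [← h1, ← h2]
      exact hp
  · rintro (⟨h, hne⟩ | ⟨h, hne⟩)
    · exact ⟨⟨_, h, rfl⟩, hne⟩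
    · exact ⟨⟨_, h, Sym2.eq_swap⟩, hne⟩

theorem adj_iff (u v : Fin 21) : G.Adj u v ↔ adjB u v = true := by
  rw [G, adj_list_iff]
  revert u v
  decide +kernel

theorem adjT_iff (u v : Fin 21) : T.Adj u v ↔ adjT u v = true := by
  rw [T, adj_list_iff]
  revert u v
  decide +kernel

/-- The cyclic order. -/
def nextG (v u : Fin 21) : Fin 21 := Fin.ofNat 21 (look nTab v u)

/-- The face to the left of a directed edge. -/
def faceG (u v : Fin 21) : Fin 35 := Fin.ofNat 35 (look fTab u v)

/-- The face permutation. -/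
def step (d : Fin 21 × Fin 21) : Fin 21 × Fin 21 := (d.2, nextG d.2 d.1)

theorem next_ok : ∀ v u : Fin 21, adjB v u = true → adjB v (nextG v u) = true := by
  decide +kernel

theorem cyclic_ok : ∀ v u w : Fin 21, adjB v u = true → adjB v w = true →
    ∃ k : Fin 11, (nextG v)^[(k : ℕ)] u = w := by
  decide +kernel

theorem face_step : ∀ u v : Fin 21, adjB u v = true →
    adjB (step (u, v)).1 (step (u, v)).2 = true ∧
      faceG (step (u, v)).1 (step (u, v)).2 = faceG u v := by
  decide +kernel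

/-- One directed edge for every face. -/
def repTab : List (Fin 21 × Fin 21) :=
  [(0, 5), (0, 1), (1, 6), (6, 0), (1, 7), (1, 2), (2, 7), (7, 1), (2, 8), (2, 3), (3, 8), (8,
  2), (3, 9), (3, 4), (4, 9), (9, 3), (4, 10), (4, 5), (5, 10), (10, 4), (5, 11), (5, 0), (0,
  11), (11, 5), (0, 6), (6, 8), (6, 7), (7, 8), (8, 6), (8, 9), (9, 10), (10, 8), (10, 11),
  (11, 6), (6, 10)]

/-- One directed edge for every face. -/
def repD (f : Fin 35) : Fin 21 × Fin 21 := repTab.getD f (0, 0)

theorem face_rep : ∀ u v : Fin 21, adjB u v = true →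
    (∃ k : Fin 6, step^[(k : ℕ)] (u, v) = repD (faceG u v)) ∧
      ∃ k : Fin 6, step^[(k : ℕ)] (repD (faceG u v)) = (u, v) := by
  decide +kernel

theorem face_same (u v : Fin 21) (h : adjB u v = true) (u' v' : Fin 21) (h' : adjB u' v' = true)
    (hf : faceG u v = faceG u' v') : ∃ k : ℕ, step^[k] (u, v) = (u', v') := by
  obtain ⟨⟨k, hk⟩, -⟩ := face_rep u v h
  obtain ⟨-, ⟨j, hj⟩⟩ := face_rep u' v' h'
  refine ⟨j + k, ?_⟩
  rw [Function.iterate_add_apply, hk, hf, hj]

theorem face_surj : ∀ f : Fin 35, ∃ u v : Fin 21, adjB u v = true ∧ faceG u v = f := by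
  decide +kernel

/-! ### Connectivity by computation -/

/-- Labels of the components. -/
def cl (n : ℕ) : List (ℕ × ℕ) → List ℕ
  | [] => List.range n
  | p :: l => mergeLab (cl n l) p.1 p.2

/-- A pair of numbers. -/
def nat2 (p : Fin 21 × Fin 21) : ℕ × ℕ := ((p.1 : ℕ), (p.2 : ℕ))

theorem cl_eq (l : List (Fin 21 × Fin 21)) : cl 21 (l.map nat2) = labs l := by
  induction l with
  | nil => rw [List.map_nil, cl, labs_nil]
  | cons p l ih =>
    rw [List.map_cons, cl, ih, ← labs_cons]
    rfl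

theorem rep_iff (l : List (Fin 21 × Fin 21)) (u v : Fin 21) :
    rep l u = rep l v ↔ (cl 21 (l.map nat2)).getD u 0 = (cl 21 (l.map nat2)).getD v 0 := by
  rw [cl_eq, labs_getD, labs_getD, Fin.ext_iff]

/-- The edges with both ends satisfying a predicate. -/
def filt (f : ℕ → Bool) : List (ℕ × ℕ) → List (ℕ × ℕ)
  | [] => []
  | p :: l => bif f p.1 then (bif f p.2 then p :: filt f l else filt f l) else filt f l

theorem filt_eq (f : ℕ → Bool) (l : List (Fin 21 × Fin 21)) (s : Set (Fin 21))
    [DecidablePred (· ∈ s)] (h : ∀ v : Fin 21, f v = decide (v ∈ s)) :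
    (l.filter fun p => decide (p.1 ∈ s) && decide (p.2 ∈ s)).map nat2 = filt f (l.map nat2) := by
  induction l with
  | nil => rfl
  | cons p l ih =>
    rw [List.map_cons, filt, ← ih, List.filter_cons]
    simp only [nat2, h]
    by_cases h1 : p.1 ∈ s <;> by_cases h2 : p.2 ∈ s <;> simp [h1, h2, nat2]

/-- The labels of the vertices satisfying `f`. -/
def pick (f : ℕ → Bool) : ℕ → List ℕ → List ℕ
  | _, [] => []
  | i, a :: l => bif f i then a :: pick f (Nat.succ i) l else pick f (Nat.succ i) l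

/-- All entries are equal to `a`. -/
def allEq (a : ℕ) : List ℕ → Bool
  | [] => true
  | b :: l => bif Nat.beq b a then allEq a l else false

/-- All vertices satisfying `f` have the same label. -/
def same (f : ℕ → Bool) (lab : List ℕ) : Bool :=
  match pick f 0 lab with
  | [] => true
  | a :: l => allEq a l

theorem mem_pick (f : ℕ → Bool) (lab : List ℕ) (i x : ℕ) :
    x ∈ pick f i lab ↔ ∃ j, j < lab.length ∧ f (i + j) = true ∧ lab.getD j 0 = x := by
  induction lab generalizing i with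
  | nil => simp [pick]
  | cons a l ih =>
    simp only [pick]
    have hrest : x ∈ pick f (Nat.succ i) l ↔
        ∃ j, j < l.length ∧ f (i + (j + 1)) = true ∧ l.getD j 0 = x := by
      rw [ih]
      constructor
      · rintro ⟨j, h1, h2, h3⟩
        refine ⟨j, h1, ?_, h3⟩
        rw [← h2]
        congr 1
        omega
      · rintro ⟨j, h1, h2, h3⟩
        refine ⟨j, h1, ?_, h3⟩
        rw [← h2]
        congr 1
        omega
    cases hfi : f i
    · rw [cond_false, hrest]
      constructor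
      · rintro ⟨j, h1, h2, h3⟩
        exact ⟨j + 1, by simpa using h1, h2, by simpa using h3⟩
      · rintro ⟨j, h1, h2, h3⟩
        cases j with
        | zero =>
          rw [Nat.add_zero, hfi] at h2
          exact absurd h2 (by simp)
        | succ j => exact ⟨j, by simpa using h1, h2, by simpa using h3⟩
    · rw [cond_true, List.mem_cons, hrest]
      constructor
      · rintro (rfl | ⟨j, h1, h2, h3⟩)
        · exact ⟨0, by simp, by simpa using hfi, by simp⟩
        · exact ⟨j + 1, by simpa using h1, h2, by simpa using h3⟩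
      · rintro ⟨j, h1, h2, h3⟩
        cases j with
        | zero =>
          left
          simpa using h3.symm
        | succ j => exact Or.inr ⟨j, by simpa using h1, h2, by simpa using h3⟩

theorem allEq_iff (a : ℕ) (l : List ℕ) : allEq a l = true ↔ ∀ x ∈ l, x = a := by
  induction l with
  | nil => simp [allEq]
  | cons b l ih =>
    simp only [allEq, List.mem_cons, forall_eq_or_imp]
    by_cases h : b = a
    · simp [h, ih]
    · have : Nat.beq b a = false := by
        rw [← Bool.not_eq_true, Nat.beq_eq]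
        exact h
      simp [this, h]

theorem length_cl (n : ℕ) (l : List (ℕ × ℕ)) : (cl n l).length = n := by
  induction l with
  | nil => simp [cl]
  | cons p l ih => simp [cl, mergeLab, ih]

theorem same_iff (f : ℕ → Bool) (lab : List ℕ) (hlab : lab.length = 21) :
    same f lab = true ↔ ∀ u v : Fin 21, f u = true → f v = true →
      lab.getD u 0 = lab.getD v 0 := by
  have h1 : same f lab = true ↔ ∀ x ∈ pick f 0 lab, ∀ y ∈ pick f 0 lab, x = y := by
    unfold same
    cases h : pick f 0 lab with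
    | nil => simp
    | cons a l =>
      simp only [allEq_iff, List.mem_cons, forall_eq_or_imp]
      constructor
      · intro h
        exact ⟨⟨trivial, fun y hy => (h y hy).symm⟩, fun x hx => ⟨h x hx, fun y hy =>
          (h x hx).trans (h y hy).symm⟩⟩
      · intro h x hx
        exact (h.2 x hx).1
  rw [h1]
  simp only [mem_pick, hlab, Nat.zero_add]
  constructor
  · intro h u v hu hv
    exact h _ ⟨u, u.2, hu, rfl⟩ _ ⟨v, v.2, hv, rfl⟩
  · rintro h x ⟨u, hu1, hu2, rfl⟩ y ⟨v, hv1, hv2, rfl⟩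
    exact h ⟨u, hu1⟩ ⟨v, hv1⟩ hu2 hv2

theorem connected_of_same (f : ℕ → Bool) (l : List (Fin 21 × Fin 21)) (s : Set (Fin 21))
    [DecidablePred (· ∈ s)] (h : ∀ v : Fin 21, f v = decide (v ∈ s)) :
    (∀ u v : s, ((listGraph l).induce s).Reachable u v) ↔
      same f (cl 21 (filt f (l.map nat2))) = true := by
  rw [same_iff _ _ (length_cl _ _)]
  constructor
  · intro hc u v hu hv
    rw [h, decide_eq_true_eq] at hu hv
    have := (induce_reachable_iff l s u v hu hv).1 (hc ⟨u, hu⟩ ⟨v, hv⟩)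
    rw [rep_iff, filt_eq f l s h] at this
    exact this
  · rintro hc ⟨u, hu⟩ ⟨v, hv⟩
    rw [induce_reachable_iff l s u v hu hv, rep_iff, filt_eq f l s h]
    exact hc u v (by rw [h]; simpa using hu) (by rw [h]; simpa using hv)

/-- All edges, as pairs of numbers. -/
def gN : List (ℕ × ℕ) := (tE ++ sE).map nat2

/-- The edges on the first 12 vertices, as pairs of numbers. -/
def tN : List (ℕ × ℕ) := tE.map nat2

theorem conn_all : G.Connected := by
  have : Nonempty (Fin 21) := ⟨0⟩
  rw [G, connected_iff]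
  intro u v
  rw [rep_iff]
  revert u v
  have : same (fun _ => true) (cl 21 gN) = true := by decide +kernel
  rw [same_iff _ _ (length_cl _ _)] at this
  exact fun u v => this u v rfl rfl

theorem conn_two : ∀ a b : Fin 21, a ≤ b → same (fun v => !(Nat.beq v a) && !(Nat.beq v b))
    (cl 21 (filt (fun v => !(Nat.beq v a) && !(Nat.beq v b)) gN)) = true := by
  decide +kernel

theorem exists_other : ∀ a b : Fin 21, ∃ v : Fin 21, v ∉ ({a, b} : Finset (Fin 21)) := by
  decide +kernel

theorem beq_eq_decide (v a : Fin 21) : Nat.beq v a = decide (v = a) := by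
  by_cases h : v = a
  · simp [h]
  · have h1 : Nat.beq v a = false := by
      rw [← Bool.not_eq_true, Nat.beq_eq]
      exact fun hh => h (Fin.ext hh)
    simp [h, h1]

theorem conn_pair' (a b : Fin 21) (hab : a ≤ b) :
    (G.induce {v | v ∉ ({a, b} : Finset (Fin 21))}).Connected := by
  have h1 := conn_two a b hab
  have h2 := (connected_of_same (fun v => !(Nat.beq v a) && !(Nat.beq v b)) (tE ++ sE)
    {v | v ∉ ({a, b} : Finset (Fin 21))} (fun v => ?_)).2 h1
  · have hne : ∃ v : Fin 21, v ∉ ({a, b} : Finset (Fin 21)) := exists_other a b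
    obtain ⟨v, hv⟩ := hne
    have : Nonempty ({v | v ∉ ({a, b} : Finset (Fin 21))} : Set (Fin 21)) := ⟨⟨v, hv⟩⟩
    exact ⟨h2⟩
  · rw [beq_eq_decide, beq_eq_decide]
    by_cases h1 : v = a <;> by_cases h2 : v = b <;> simp [h1, h2]

theorem conn_pair (a b : Fin 21) : (G.induce {v | v ∉ ({a, b} : Finset (Fin 21))}).Connected := by
  rcases le_total a b with h | h
  · exact conn_pair' a b h
  · rw [Finset.pair_comm]
    exact conn_pair' b a h

theorem threeConnected : ThreeConnected G := by
  refine ⟨by simp, fun S hS => ?_⟩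
  have hcases : S.card = 0 ∨ S.card = 1 ∨ S.card = 2 := by omega
  rcases hcases with h | h | h
  · rw [Finset.card_eq_zero] at h
    subst h
    have hc := conn_all
    have : {v : Fin 21 | v ∉ (∅ : Finset (Fin 21))} = Set.univ := by
      ext v
      simp
    rw [this]
    exact (SimpleGraph.induceUnivIso G).connected_iff.2 hc
  · obtain ⟨a, rfl⟩ := Finset.card_eq_one.1 h
    have := conn_pair a a
    rwa [Finset.pair_eq_singleton] at this
  · obtain ⟨a, b, -, rfl⟩ := Finset.card_eq_two.1 h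
    exact conn_pair a b

theorem card_edges : Nat.card G.edgeSet = 54 := by
  classical
  have h1 : G.edgeSet = (((tE ++ sE).map fun p => s(p.1, p.2)).toFinset : Set (Sym2 (Fin 21))) := by
    ext e
    induction e using Sym2.ind with
    | _ u v =>
      rw [SimpleGraph.mem_edgeSet, adj_iff]
      rw [Finset.mem_coe, List.mem_toFinset]
      revert u v
      decide +kernel
  rw [h1]
  rw [Nat.card_coe_set_eq, Set.ncard_coe_finset]
  decide +kernel

theorem step_iter (u v : Fin 21) (h : adjB u v = true) (k : ℕ) :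
    adjB (step^[k] (u, v)).1 (step^[k] (u, v)).2 = true ∧
      faceG (step^[k] (u, v)).1 (step^[k] (u, v)).2 = faceG u v := by
  induction k with
  | zero => exact ⟨h, rfl⟩
  | succ k ih =>
    rw [Function.iterate_succ_apply']
    have := face_step _ _ ih.1
    exact ⟨this.1, this.2.trans ih.2⟩

/-- The plane graph. -/
def P : PlaneGraph (Fin 21) where
  graph := G
  connected := conn_all
  next := nextG
  next_adj := fun v u h => by
    rw [adj_iff] at h ⊢
    exact next_ok v u h
  next_cyclic := fun v u w h h' => by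
    rw [adj_iff] at h h'
    obtain ⟨k, hk⟩ := cyclic_ok v u w h h'
    exact ⟨k, hk⟩
  Face := Fin 35
  faceFintype := inferInstance
  face := faceG
  face_iff := fun u v u' v' h h' => by
    rw [adj_iff] at h h'
    constructor
    · intro hf
      exact face_same u v h u' v' h' hf
    · rintro ⟨k, hk⟩
      have h1 := (step_iter u v h k).2
      have h2 : step^[k] (u, v) = (u', v') := hk
      rw [h2] at h1
      exact h1.symm
  face_surj := fun f => by
    obtain ⟨u, v, h, hf⟩ := face_surj f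
    exact ⟨u, v, (adj_iff u v).2 h, hf⟩
  euler := by
    rw [card_edges]
    simp
  outer := 0

theorem triangles : ∀ u v : Fin 21, adjB u v = true → faceG u v ≠ 0 →
    step^[3] (u, v) = (u, v) := by
  decide +kernel

theorem disc : P.IsTriangulatedDisc := by
  intro u v h hne
  exact triangles u v ((adj_iff u v).1 h) hne

theorem onFace_iff (x : Fin 21) (f : Fin 35) :
    P.OnFace x f ↔ ∃ y : Fin 21, adjB x y = true ∧ faceG x y = f := by
  unfold PlaneGraph.OnFace
  constructor
  · rintro ⟨y, h, hf⟩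
    exact ⟨y, (adj_iff x y).1 h, hf⟩
  · rintro ⟨y, h, hf⟩
    exact ⟨y, (adj_iff x y).2 h, hf⟩

theorem outer_vertex : ∀ v : Fin 21, (v : ℕ) < 6 →
    ∃ y : Fin 21, adjB v y = true ∧ faceG v y = 0 := by
  decide +kernel

theorem second_vertex : ∀ v : Fin 21, (v : ℕ) < 18 →
    (∃ y : Fin 21, adjB (Fin.ofNat 21 (v % 6)) y = true ∧ faceG (Fin.ofNat 21 (v % 6)) y = 0) ∧
    (∃ y : Fin 21, adjB (Fin.ofNat 21 (v % 6)) y = true ∧
      faceG (Fin.ofNat 21 (v % 6)) y = Fin.ofNat 35 (4 * (v % 6) + 3)) ∧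
    (∃ y : Fin 21, adjB v y = true ∧ faceG v y = Fin.ofNat 35 (4 * (v % 6) + 3)) := by
  decide +kernel

/-- Third layer: a vertex of the outer hexagon. -/
def w1 : ℕ → Fin 21 := fun n => if n = 18 then 1 else if n = 19 then 3 else 5

/-- Third layer: a vertex of the inner hexagon. -/
def w2 : ℕ → Fin 21 := fun n => if n = 18 then 7 else if n = 19 then 9 else 11

/-- Third layer: a face of the band. -/
def w3 : ℕ → Fin 35 := fun n => if n = 18 then 4 else if n = 19 then 12 else 20

/-- Third layer: a face inside the inner hexagon. -/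
def w4 : ℕ → Fin 35 := fun n => if n = 18 then 26 else if n = 19 then 29 else 32

theorem third_vertex : ∀ v : Fin 21, 18 ≤ (v : ℕ) → (w1 v : ℕ) < 6 ∧ (w2 v : ℕ) < 18 ∧
    (∃ y : Fin 21, adjB (w1 v) y = true ∧ faceG (w1 v) y = 0) ∧
    (∃ y : Fin 21, adjB (w1 v) y = true ∧ faceG (w1 v) y = w3 v) ∧
    (∃ y : Fin 21, adjB (w2 v) y = true ∧ faceG (w2 v) y = w3 v) ∧
    (∃ y : Fin 21, adjB (w2 v) y = true ∧ faceG (w2 v) y = w4 v) ∧
    (∃ y : Fin 21, adjB v y = true ∧ faceG v y = w4 v) := by
  decide +kernel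

theorem layer3 (v : Fin 21) (hv : (v : ℕ) < 6) : v ∈ P.outerAfter ∅ := by
  refine ⟨Set.notMem_empty v, P.outer, PlaneGraph.Region.outer, ?_⟩
  exact (onFace_iff v 0).2 (outer_vertex v hv)

theorem ofNat_lt (n : ℕ) : ((Fin.ofNat 21 (n % 6) : Fin 21) : ℕ) < 6 := by
  simp only [Fin.val_ofNat]
  omega

theorem layer2 (v : Fin 21) (hv : (v : ℕ) < 18) :
    v ∈ P.outerAfter ∅ ∪ P.outerAfter (P.outerAfter ∅) := by
  by_cases h : v ∈ P.outerAfter ∅
  · exact Or.inl h
  · right
    obtain ⟨h1, h2, h3⟩ := second_vertex v hv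
    refine ⟨h, _, ?_, (onFace_iff v _).2 h3⟩
    exact PlaneGraph.Region.step PlaneGraph.Region.outer (layer3 _ (ofNat_lt v))
      ((onFace_iff _ 0).2 h1) ((onFace_iff _ _).2 h2)

theorem threeOuterplanar : P.IsThreeOuterplanar := by
  rw [PlaneGraph.IsThreeOuterplanar, Set.eq_univ_iff_forall]
  intro v
  by_cases h : v ∈ P.outerAfter ∅ ∪ P.outerAfter (P.outerAfter ∅)
  · exact Or.inl h
  · right
    have hv : 18 ≤ (v : ℕ) := by
      by_contra hcon
      exact h (layer2 v (by omega))
    obtain ⟨hs, ht, h1, h2, h3, h4, h5⟩ := third_vertex v hv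
    refine ⟨h, _, ?_, (onFace_iff v _).2 h5⟩
    refine PlaneGraph.Region.step (f := w3 v) (s := w2 v) ?_ (layer2 _ ht) ((onFace_iff _ _).2 h3)
      ((onFace_iff _ _).2 h4)
    exact PlaneGraph.Region.step PlaneGraph.Region.outer (Or.inl (layer3 _ hs))
      ((onFace_iff _ 0).2 h1) ((onFace_iff _ _).2 h2)

/-! ### There are no two completely independent spanning trees -/

/-- The nine triangles containing a new vertex. -/
def tris : List (ℕ × ℕ × ℕ) :=
  [(0, 1, 6), (1, 2, 7), (2, 3, 8), (3, 4, 9), (4, 5, 10), (5, 0, 11), (6, 7, 8), (8, 9, 10),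
    (10, 11, 6)]

/-- Some triangle is contained in the set. -/
def mono (f : ℕ → Bool) : List (ℕ × ℕ × ℕ) → Bool
  | [] => false
  | t :: l => bif f t.1 then (bif f t.2.1 then (bif f t.2.2 then true else mono f l) else mono f l)
      else mono f l

/-- The predicate given by a list. -/
def inX (bs : List Bool) (v : ℕ) : Bool := bs.getD v false

/-- The complement within the first 12 vertices. -/
def inY (bs : List Bool) (v : ℕ) : Bool := bif Nat.blt v 12 then !(bs.getD v false) else false

/-- The check for one partition. -/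
def chk (bs : List Bool) : Bool :=
  bif mono (inX bs) tris then true else
  bif mono (inY bs) tris then true else
  bif same (inX bs) (cl 21 (filt (inX bs) tN)) then
    !(same (inY bs) (cl 21 (filt (inY bs) tN))) else true

/-- The check for all partitions. -/
def allChk : ℕ → List Bool → Bool
  | 0, bs => chk bs
  | n + 1, bs => bif allChk n (true :: bs) then allChk n (false :: bs) else false

theorem allChk_spec (n : ℕ) : ∀ bs : List Bool, allChk n bs = true →
    ∀ l : List Bool, l.length = n → chk (l ++ bs) = true := by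
  induction n with
  | zero =>
    intro bs h l hl
    rw [List.length_eq_zero_iff] at hl
    rw [hl]
    exact h
  | succ n ih =>
    intro bs h l hl
    rw [allChk] at h
    have h1 : allChk n (true :: bs) = true := by
      cases h' : allChk n (true :: bs)
      · rw [h'] at h
        exact absurd h (by simp)
      · rfl
    rw [h1, cond_true] at h
    rcases List.eq_nil_or_concat l with rfl | ⟨l', b, rfl⟩
    · simp at hl
    · rw [List.concat_eq_append, List.length_append, List.length_singleton] at hl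
      rw [List.concat_eq_append, List.append_assoc, List.singleton_append]
      cases b
      · exact ih _ h l' (by omega)
      · exact ih _ h1 l' (by omega)

theorem allChk_ok : allChk 12 [] = true := by
  decide +kernel

theorem mono_spec (f : ℕ → Bool) (l : List (ℕ × ℕ × ℕ)) (h : mono f l = true) :
    ∃ t ∈ l, f t.1 = true ∧ f t.2.1 = true ∧ f t.2.2 = true := by
  induction l with
  | nil => exact absurd h (by simp [mono])
  | cons t l ih =>
    have hrest : mono f l = true → ∃ t' ∈ t :: l, f t'.1 = true ∧ f t'.2.1 = true ∧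
        f t'.2.2 = true := by
      intro h'
      obtain ⟨t', ht', h''⟩ := ih h'
      exact ⟨t', List.mem_cons_of_mem _ ht', h''⟩
    cases h1 : f t.1
    · rw [mono, h1] at h
      exact hrest h
    · cases h2 : f t.2.1
      · rw [mono, h1, h2] at h
        exact hrest h
      · cases h3 : f t.2.2
        · rw [mono, h1, h2, h3] at h
          exact hrest h
        · exact ⟨t, List.mem_cons_self, h1, h2, h3⟩

theorem tri_stack : ∀ t ∈ tris, ∃ s : Fin 21, 12 ≤ (s : ℕ) ∧ ∀ x : Fin 21, adjB s x = true →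
    (x : ℕ) = t.1 ∨ (x : ℕ) = t.2.1 ∨ (x : ℕ) = t.2.2 := by
  decide +kernel

/-- `X ⊆ {0, ..., 11}` and its complement in `{0, ..., 11}` cannot both induce connected
subgraphs if none of the nine triangles is contained in one of them. -/
theorem no_partition (X Y : Set (Fin 21)) (hXY : ∀ v : Fin 21, (v : ℕ) < 12 → (v ∈ X ↔ v ∉ Y))
    (hX : ∀ v ∈ X, (v : ℕ) < 12) (hY : ∀ v ∈ Y, (v : ℕ) < 12)
    (cX : ∀ u v : X, (T.induce X).Reachable u v) (cY : ∀ u v : Y, (T.induce Y).Reachable u v)
    (hX3 : ∀ s : Fin 21, 12 ≤ (s : ℕ) → ∃ x, adjB s x = true ∧ x ∈ X)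
    (hY3 : ∀ s : Fin 21, 12 ≤ (s : ℕ) → ∃ x, adjB s x = true ∧ x ∈ Y) : False := by
  classical
  set bs : List Bool := (List.finRange 12).map fun i => decide ((i.castLE (by norm_num) : Fin 21) ∈ X)
    with hbs
  have hlen : bs.length = 12 := by simp [hbs]
  have hchk : chk bs = true := by
    have := allChk_spec 12 [] allChk_ok bs hlen
    rwa [List.append_nil] at this
  have hin : ∀ v : Fin 21, inX bs v = decide (v ∈ X) := by
    intro v
    unfold inX
    by_cases hv : (v : ℕ) < 12
    · rw [hbs, List.getD_eq_getElem?_getD, List.getElem?_map,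
        List.getElem?_eq_getElem (by simpa using hv)]
      simp
    · rw [List.getD_eq_getElem?_getD, List.getElem?_eq_none (by omega)]
      have : v ∉ X := fun h => hv (hX v h)
      simp [this]
  have hiy : ∀ v : Fin 21, inY bs v = decide (v ∈ Y) := by
    intro v
    have h1 := hin v
    unfold inX at h1
    unfold inY
    rw [h1]
    by_cases hv : (v : ℕ) < 12
    · have : Nat.blt v 12 = true := by
        rw [Nat.blt_eq]
        exact hv
      rw [this, cond_true]
      have h2 := hXY v hv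
      by_cases h3 : v ∈ X
      · simp [h3, h2.1 h3]
      · have : v ∈ Y := by
          by_contra h4
          exact h3 (h2.2 h4)
        simp [h3, this]
    · have : Nat.blt v 12 = false := by
        rw [← Bool.not_eq_true, Nat.blt_eq]
        exact hv
      rw [this, cond_false]
      have : v ∉ Y := fun h => hv (hY v h)
      simp [this]
  have hXY' : ∀ v : Fin 21, v ∈ X → v ∉ Y := fun v hv => (hXY v (hX v hv)).1 hv
  have m1 : mono (inX bs) tris = false := by
    by_contra hcon
    rw [Bool.not_eq_false] at hcon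
    obtain ⟨t, ht, h1, h2, h3⟩ := mono_spec _ _ hcon
    obtain ⟨s, hs, hadj⟩ := tri_stack t ht
    obtain ⟨x, hx, hxY⟩ := hY3 s hs
    have hx' : inX bs x = true := by
      rcases hadj x hx with h | h | h <;> rw [h] <;> assumption
    rw [hin, decide_eq_true_eq] at hx'
    exact hXY' x hx' hxY
  have m2 : mono (inY bs) tris = false := by
    by_contra hcon
    rw [Bool.not_eq_false] at hcon
    obtain ⟨t, ht, h1, h2, h3⟩ := mono_spec _ _ hcon
    obtain ⟨s, hs, hadj⟩ := tri_stack t ht
    obtain ⟨x, hx, hxX⟩ := hX3 s hs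
    have hx' : inY bs x = true := by
      rcases hadj x hx with h | h | h <;> rw [h] <;> assumption
    rw [hiy, decide_eq_true_eq] at hx'
    exact hXY' x hxX hx'
  have s1 : same (inX bs) (cl 21 (filt (inX bs) tN)) = true :=
    (connected_of_same (inX bs) tE X hin).1 cX
  have s2 : same (inY bs) (cl 21 (filt (inY bs) tN)) = true :=
    (connected_of_same (inY bs) tE Y hiy).1 cY
  rw [chk, m1, m2, s1, s2] at hchk
  exact absurd hchk (by simp)

/-! ### Spanning trees -/

theorem adj_small : ∀ u v : Fin 21, adjB u v = true → (u : ℕ) < 12 → (v : ℕ) < 12 →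
    adjT u v = true := by
  decide +kernel

theorem adj_stack_small : ∀ s x : Fin 21, adjB s x = true → 12 ≤ (s : ℕ) → (x : ℕ) < 12 := by
  decide +kernel

theorem adj_stack : ∀ s x : Fin 21, adjB s x = true → 12 ≤ (s : ℕ) → ∀ y : Fin 21,
    adjB s y = true → x ≠ y → adjT x y = true := by
  decide +kernel

theorem exists_far : ∀ s : Fin 21, ∃ z : Fin 21, z ≠ s ∧ adjB s z = false := by
  decide +kernel

/-- A path between two vertices of `X`, all of whose inner vertices in `{0, ..., 11}` are in `X`. -/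
theorem reach_of_path (T₁ : SimpleGraph (Fin 21)) (hle : T₁ ≤ G) (X : Set (Fin 21))
    (hX : ∀ v ∈ X, (v : ℕ) < 12) (hI : ∀ v : Fin 21, (v : ℕ) < 12 → Inner T₁ v → v ∈ X) (n : ℕ) :
    ∀ (u v : Fin 21) (p : T₁.Walk u v), p.IsPath → p.length ≤ n → ∀ (hu : u ∈ X) (hv : v ∈ X),
      (T.induce X).Reachable ⟨u, hu⟩ ⟨v, hv⟩ := by
  have hedge : ∀ (u x : Fin 21) (hu : u ∈ X) (hx : x ∈ X), adjT u x = true →
      (T.induce X).Reachable ⟨u, hu⟩ ⟨x, hx⟩ := by
    intro u x hu hx h
    apply SimpleGraph.Adj.reachable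
    rw [SimpleGraph.comap_adj]
    exact (adjT_iff u x).2 h
  induction n with
  | zero =>
    intro u v p _ hl hu hv
    cases p with
    | nil => exact SimpleGraph.Reachable.refl _
    | cons h p => exact absurd hl (by simp)
  | succ n ih =>
    intro u v p hp hl hu hv
    cases p with
    | nil => exact SimpleGraph.Reachable.refl _
    | @cons _ x _ h1 p =>
      rw [SimpleGraph.Walk.cons_isPath_iff] at hp
      rw [SimpleGraph.Walk.length_cons] at hl
      have ha1 := (adj_iff u x).1 (hle h1)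
      cases p with
      | nil => exact hedge u v hu hv (adj_small u v ha1 (hX u hu) (hX v hv))
      | @cons _ y _ h2 p =>
        have huy : u ≠ y := by
          rintro rfl
          apply hp.2
          simp
        have hxI : Inner T₁ x := ⟨u, y, huy, h1.symm, h2⟩
        have ha2 := (adj_iff x y).1 (hle h2)
        by_cases hx : (x : ℕ) < 12
        · have hxX := hI x hx hxI
          exact (hedge u x hu hxX (adj_small u x ha1 (hX u hu) hx)).trans
            (ih x v (SimpleGraph.Walk.cons h2 p) hp.1 (by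
              rw [SimpleGraph.Walk.length_cons] at hl ⊢
              omega) hxX hv)
        · have hx' : 12 ≤ (x : ℕ) := by omega
          have ha1' := (adj_iff x u).1 (hle h1.symm)
          have huy' := adj_stack x u ha1' hx' y ha2 huy
          have hy := adj_stack_small x y ha2 hx'
          have hyX : y ∈ X := by
            cases p with
            | nil => exact hv
            | @cons _ z _ h3 p =>
              have hp1 := hp.1
              rw [SimpleGraph.Walk.cons_isPath_iff] at hp1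
              have hxz : x ≠ z := by
                rintro rfl
                apply hp1.2
                simp
              exact hI y hy ⟨x, z, hxz, h2.symm, h3⟩
          have hp1 := hp.1
          rw [SimpleGraph.Walk.cons_isPath_iff] at hp1
          exact (hedge u y hu hyX huy').trans (ih y v p hp1.1 (by
            rw [SimpleGraph.Walk.length_cons] at hl
            omega) hyX hv)

theorem preconn_of_tree (T₁ : SimpleGraph (Fin 21)) (hle : T₁ ≤ G) (ht : T₁.IsTree)
    (X : Set (Fin 21)) (hX : ∀ v ∈ X, (v : ℕ) < 12)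
    (hI : ∀ v : Fin 21, (v : ℕ) < 12 → Inner T₁ v → v ∈ X) :
    ∀ u v : X, (T.induce X).Reachable u v := by
  classical
  rintro ⟨u, hu⟩ ⟨v, hv⟩
  obtain ⟨p⟩ := ht.connected.preconnected u v
  exact reach_of_path T₁ hle X hX hI _ u v p.toPath p.toPath.2 le_rfl hu hv

theorem inner_nbr (T₁ : SimpleGraph (Fin 21)) (hle : T₁ ≤ G) (ht : T₁.IsTree) (s : Fin 21) :
    ∃ x, adjB s x = true ∧ Inner T₁ x := by
  classical
  obtain ⟨z, hz, hsz⟩ := exists_far s
  obtain ⟨p⟩ := ht.connected.preconnected s z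
  have hp := p.toPath.2
  revert hp
  generalize (p.toPath : T₁.Walk s z) = q
  intro hq
  cases q with
  | nil => exact absurd rfl hz
  | @cons _ x _ h1 q =>
    cases q with
    | nil =>
      have := (adj_iff s z).1 (hle h1)
      rw [hsz] at this
      exact absurd this (by simp)
    | @cons _ y _ h2 q =>
      rw [SimpleGraph.Walk.cons_isPath_iff] at hq
      have hsy : s ≠ y := by
        rintro rfl
        apply hq.2
        simp
      exact ⟨x, (adj_iff s x).1 (hle h1), s, y, hsy, h1.symm, h2⟩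

theorem no_cist : ¬ ∃ T₁ T₂ : SimpleGraph (Fin 21), IsCIST G T₁ T₂ := by
  rintro ⟨T₁, T₂, h⟩
  have hdis := inner_disjoint h
  obtain ⟨l1, l2, t1, t2, -⟩ := h
  refine no_partition {v | (v : ℕ) < 12 ∧ ¬ Inner T₂ v} {v | (v : ℕ) < 12 ∧ Inner T₂ v}
    ?_ ?_ ?_ ?_ ?_ ?_ ?_
  · intro v hv
    constructor
    · rintro ⟨-, h1⟩ ⟨-, h2⟩
      exact h1 h2
    · intro h1
      exact ⟨hv, fun h2 => h1 ⟨hv, h2⟩⟩
  · exact fun v hv => hv.1
  · exact fun v hv => hv.1
  · apply preconn_of_tree T₁ l1 t1
    · exact fun v hv => hv.1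
    · exact fun v hv hI => ⟨hv, fun h2 => hdis v ⟨hI, h2⟩⟩
  · apply preconn_of_tree T₂ l2 t2
    · exact fun v hv => hv.1
    · exact fun v hv hI => ⟨hv, hI⟩
  · intro s hs
    obtain ⟨x, hx, hI⟩ := inner_nbr T₁ l1 t1 s
    exact ⟨x, hx, adj_stack_small s x hx hs, fun h2 => hdis x ⟨hI, h2⟩⟩
  · intro s hs
    obtain ⟨x, hx, hI⟩ := inner_nbr T₂ l2 t2 s
    exact ⟨x, hx, adj_stack_small s x hx hs, hI⟩

/-- **MP_6a18d8_co, negated form.** There is a 3-connected triangulated disc (with 21 vertices) whose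
embedding is 3-outerplanar and which has no two completely independent spanning trees. -/
theorem result : ∃ P : PlaneGraph (Fin 21), ThreeConnected P.graph ∧ P.IsTriangulatedDisc ∧
    P.IsThreeOuterplanar ∧ ¬ ∃ T₁ T₂ : SimpleGraph (Fin 21), IsCIST P.graph T₁ T₂ :=
  ⟨P, threeConnected, disc, threeOuterplanar, no_cist⟩

end Pool.Agent.Results.MP_6a18d8_co.NoTwoCISTs
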